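import Mathlib

/-!
# Real Ehrhart functions of the integer translates of an arbitrary bounded set

For arbitrary bounded sets `K, H ⊆ ℝ^d` the functions `L_{K+w}` and `L_{H+w}` agree for all integer
vectors `w` if and only if `K` and `H` have the same points in the union `D` of all lines through
an integer point in an integer direction.  This contains the positive answer for convex bodies
(and for all regular closed bounded sets), and it shows that the answer is positive for all bounded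
sets for `d ≤ 1`, and negative for compact sets for every `d ≥ 2`.
-/

set_option autoImplicit false

open Set

namespace Pool.Agent.Results.MP_c39918_co.BoundedSets

/-- The real Ehrhart function `L_K(s) = #(sK ∩ ℤ^d)`. -/
noncomputable def L {d : ℕ} (K : Set (Fin d → ℝ)) (s : ℝ) : ℕ :=
  Set.ncard {z : Fin d → ℤ | ∃ x ∈ K, ∀ i, (z i : ℝ) = s * x i}

/-- The translate `K + w` by an integer vector. -/
def translate {d : ℕ} (K : Set (Fin d → ℝ)) (w : Fin d → ℤ) : Set (Fin d → ℝ) :=
  {y | ∃ x ∈ K, ∀ i, y i = x i + w i}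

/-- The union of all lines `w + ℝ z` with integer vectors `w`, `z`. -/
def D (d : ℕ) : Set (Fin d → ℝ) :=
  {p | ∃ (z w : Fin d → ℤ) (t : ℝ), ∀ i, p i = w i + t * z i}

/-- The point `z / s - w`. -/
noncomputable def pt {d : ℕ} (s : ℝ) (z w : Fin d → ℤ) : Fin d → ℝ := fun i => z i / s - w i

lemma L_eq {d : ℕ} (K : Set (Fin d → ℝ)) {s : ℝ} (hs : 0 < s) (w : Fin d → ℤ) :
    L (translate K w) s = Set.ncard {z : Fin d → ℤ | pt s z w ∈ K} := by
  unfold L
  congr 1
  ext z
  simp only [mem_ofPred_eq, translate]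
  constructor
  · rintro ⟨x, ⟨y, hy, hxy⟩, hz⟩
    have : pt s z w = y := by
      funext i
      unfold pt
      rw [hz i, hxy i]
      field_simp
      ring
    rw [this]
    exact hy
  · intro h
    refine ⟨fun i => z i / s, ⟨pt s z w, h, fun i => ?_⟩, fun i => ?_⟩
    · unfold pt
      ring
    · field_simp

/-- Points of `K` on the grid `{z / s - w}` are determined by the numbers `L_{K+w}(s)`. -/
lemma agree_of_L {d : ℕ} {K H : Set (Fin d → ℝ)} {R : ℝ} (hK : ∀ x ∈ K, ∀ i, |x i| ≤ R)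
    (hH : ∀ x ∈ H, ∀ i, |x i| ≤ R) {s : ℝ} (hs : 0 < s) (hR : 2 * R * s < 1)
    (h : ∀ w : Fin d → ℤ, L (translate K w) s = L (translate H w) s)
    (z w : Fin d → ℤ) (hp : pt s z w ∈ K) : pt s z w ∈ H := by
  have key : ∀ z₁ z₂ : Fin d → ℤ, (∀ i, |pt s z₁ w i| ≤ R) → (∀ i, |pt s z₂ w i| ≤ R) →
      z₁ = z₂ := by
    intro z₁ z₂ h₁ h₂
    funext i
    have e₁ := abs_le.1 (h₁ i)
    have e₂ := abs_le.1 (h₂ i)
    have e₃ : ((z₁ i : ℝ) - z₂ i) / s ≤ 2 * R := by
      have : ((z₁ i : ℝ) - z₂ i) / s = pt s z₁ w i - pt s z₂ w i := by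
        unfold pt; ring
      rw [this]; linarith
    have e₄ : ((z₂ i : ℝ) - z₁ i) / s ≤ 2 * R := by
      have : ((z₂ i : ℝ) - z₁ i) / s = pt s z₂ w i - pt s z₁ w i := by
        unfold pt; ring
      rw [this]; linarith
    rw [div_le_iff₀ hs] at e₃ e₄
    have e₅ : z₁ i - z₂ i < 1 := by
      have : (z₁ i : ℝ) - z₂ i < 1 := by linarith
      exact_mod_cast this
    have e₆ : z₂ i - z₁ i < 1 := by
      have : (z₂ i : ℝ) - z₁ i < 1 := by linarith
      exact_mod_cast this
    omega
  have h1 : {z' : Fin d → ℤ | pt s z' w ∈ K} = {z} := by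
    ext z'
    simp only [mem_ofPred_eq, mem_singleton_iff]
    constructor
    · intro hz'
      exact key z' z (hK _ hz') (hK _ hp)
    · rintro rfl
      exact hp
  have h2 := h w
  rw [L_eq K hs, L_eq H hs, h1, ncard_singleton] at h2
  obtain ⟨z', hz'⟩ := Set.ncard_eq_one.1 h2.symm
  have hz : pt s z' w ∈ H := by
    have : z' ∈ {z' : Fin d → ℤ | pt s z' w ∈ H} := by rw [hz']; rfl
    exact this
  rwa [key z z' (hK _ hp) (hH _ hz)]

lemma pt_mem_D {d : ℕ} (s : ℝ) (z w : Fin d → ℤ) : pt s z w ∈ D d :=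
  ⟨z, fun i => - w i, 1 / s, fun i => by unfold pt; push_cast; ring⟩

lemma L_of_agree {d : ℕ} {K H : Set (Fin d → ℝ)} (h : K ∩ D d = H ∩ D d) {s : ℝ} (hs : 0 < s)
    (w : Fin d → ℤ) : L (translate K w) s = L (translate H w) s := by
  rw [L_eq K hs, L_eq H hs]
  congr 1
  ext z
  have h1 : pt s z w ∈ K ∩ D d ↔ pt s z w ∈ H ∩ D d := by rw [h]
  simpa [pt_mem_D] using h1

lemma D_small {d : ℕ} {p : Fin d → ℝ} (hp : p ∈ D d) {ε : ℝ} (hε : 0 < ε) :
    ∃ s : ℝ, 0 < s ∧ s < ε ∧ ∃ z w : Fin d → ℤ, p = pt s z w := by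
  obtain ⟨z, w, t, h⟩ := hp
  obtain ⟨m, hm⟩ := exists_nat_gt (|t| + 1 / ε)
  have h1 : 1 / ε < t + m := by
    have := neg_abs_le t
    linarith
  have h2 : 0 < t + m := lt_trans (by positivity) h1
  refine ⟨1 / (t + m), by positivity, ?_, z, fun i => m * z i - w i, ?_⟩
  · rw [div_lt_iff₀ h2]
    rw [div_lt_iff₀ hε] at h1
    linarith
  · funext i
    unfold pt
    rw [h i]
    push_cast
    field_simp
    ring

lemma exists_bound {d : ℕ} {K H : Set (Fin d → ℝ)} (hK : Bornology.IsBounded K)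
    (hH : Bornology.IsBounded H) :
    ∃ R : ℝ, 0 < R ∧ (∀ x ∈ K, ∀ i, |x i| ≤ R) ∧ (∀ x ∈ H, ∀ i, |x i| ≤ R) := by
  obtain ⟨R, hR0, hR⟩ := (hK.union hH).exists_pos_norm_le
  refine ⟨R, hR0, fun x hx i => ?_, fun x hx i => ?_⟩
  · exact (norm_le_pi_norm x i).trans (hR x (Or.inl hx))
  · exact (norm_le_pi_norm x i).trans (hR x (Or.inr hx))

theorem tfae {d : ℕ} {K H : Set (Fin d → ℝ)} (hK : Bornology.IsBounded K)
    (hH : Bornology.IsBounded H) :
    List.TFAE [
      ∀ s : ℝ, 0 < s → ∀ w : Fin d → ℤ, L (translate K w) s = L (translate H w) s,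
      ∃ ε : ℝ, 0 < ε ∧ ∀ s : ℝ, 0 < s → s < ε → ∀ w : Fin d → ℤ,
        L (translate K w) s = L (translate H w) s,
      K ∩ D d = H ∩ D d] := by
  tfae_have 1 → 2 := fun h => ⟨1, one_pos, fun s hs _ => h s hs⟩
  tfae_have 3 → 1 := fun h s hs w => L_of_agree h hs w
  tfae_have 2 → 3 := by
    rintro ⟨ε, hε, h⟩
    obtain ⟨R, hR0, hKR, hHR⟩ := exists_bound hK hH
    ext p
    constructor
    · rintro ⟨hp, hpD⟩
      obtain ⟨s, hs, hsε, z, w, rfl⟩ := D_small hpD
        (show 0 < min ε (1 / (2 * R)) from lt_min hε (by positivity))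
      refine ⟨agree_of_L hKR hHR hs ?_ (h s hs (lt_of_lt_of_le hsε (min_le_left _ _))) z w hp, hpD⟩
      have := lt_of_lt_of_le hsε (min_le_right _ _)
      rw [lt_div_iff₀ (by positivity)] at this
      linarith
    · rintro ⟨hp, hpD⟩
      obtain ⟨s, hs, hsε, z, w, rfl⟩ := D_small hpD
        (show 0 < min ε (1 / (2 * R)) from lt_min hε (by positivity))
      refine ⟨agree_of_L hHR hKR hs ?_
        (fun w => (h s hs (lt_of_lt_of_le hsε (min_le_left _ _)) w).symm) z w hp, hpD⟩
      have := lt_of_lt_of_le hsε (min_le_right _ _)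
      rw [lt_div_iff₀ (by positivity)] at this
      linarith
  tfae_finish

lemma dense_grid {d : ℕ} {s : ℝ} (hi : Irrational s) :
    Dense {p : Fin d → ℝ | ∃ z w : Fin d → ℤ, p = pt s z w} := by
  have h1 : Dense {x : ℝ | ∃ a b : ℤ, x = a / s - b} := by
    have h2 : Dense ((AddSubgroup.closure {1 / s, 1} : AddSubgroup ℝ) : Set ℝ) := by
      rw [dense_addSubgroupClosure_pair_iff]
      simpa using hi.inv
    refine h2.mono ?_
    intro x hx
    rw [SetLike.mem_coe, AddSubgroup.mem_closure_pair] at hx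
    obtain ⟨a, b, rfl⟩ := hx
    refine ⟨a, -b, ?_⟩
    simp only [zsmul_eq_mul]
    push_cast
    ring
  have h3 := dense_pi (Set.univ : Set (Fin d)) (fun i _ => h1)
  refine h3.mono ?_
  intro p hp
  rw [mem_univ_pi] at hp
  choose a b hab using hp
  exact ⟨a, b, funext hab⟩

theorem regular {d : ℕ} {K H : Set (Fin d → ℝ)} (hK : Bornology.IsBounded K)
    (hH : Bornology.IsBounded H) (hKc : IsClosed K) (hHc : IsClosed H)
    (hKr : K ⊆ closure (interior K)) (hHr : H ⊆ closure (interior H)) :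
    ∃ s₀ : ℝ, 0 < s₀ ∧ ∀ s : ℝ, 0 < s → s < s₀ → Irrational s →
      (∀ w : Fin d → ℤ, L (translate K w) s = L (translate H w) s) → K = H := by
  obtain ⟨R, hR0, hKR, hHR⟩ := exists_bound hK hH
  refine ⟨1 / (2 * R), by positivity, fun s hs hsR hi h => ?_⟩
  have h1 : 2 * R * s < 1 := by
    rw [lt_div_iff₀ (by positivity)] at hsR
    linarith
  have hd := dense_grid (d := d) hi
  have sub : ∀ A B : Set (Fin d → ℝ), IsClosed B → A ⊆ closure (interior A) →
      (∀ z w : Fin d → ℤ, pt s z w ∈ A → pt s z w ∈ B) → A ⊆ B := by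
    intro A B hB hA hAB
    refine hA.trans ?_
    have h2 := hd.open_subset_closure_inter (isOpen_interior (s := A))
    refine closure_minimal (h2.trans (closure_minimal ?_ hB)) hB
    rintro p ⟨hp, z, w, rfl⟩
    exact hAB z w (interior_subset hp)
  exact Subset.antisymm
    (sub K H hHc hKr fun z w => agree_of_L hKR hHR hs h1 h z w)
    (sub H K hKc hHr fun z w => agree_of_L hHR hKR hs h1 (fun w => (h w).symm) z w)

theorem convexBodies {d : ℕ} {K H : Set (Fin d → ℝ)} (hK : IsCompact K) (hH : IsCompact H)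
    (hKv : Convex ℝ K) (hHv : Convex ℝ H) (hKi : (interior K).Nonempty)
    (hHi : (interior H).Nonempty)
    (h : ∀ s : ℝ, 0 < s → ∀ w : Fin d → ℤ, L (translate K w) s = L (translate H w) s) :
    K = H := by
  have hKr : K ⊆ closure (interior K) := by
    rw [hKv.closure_interior_eq_closure_of_nonempty_interior hKi]
    exact subset_closure
  have hHr : H ⊆ closure (interior H) := by
    rw [hHv.closure_interior_eq_closure_of_nonempty_interior hHi]
    exact subset_closure
  obtain ⟨s₀, hs₀, h0⟩ := regular hK.isBounded hH.isBounded hK.isClosed hH.isClosed hKr hHr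
  obtain ⟨s, hsi, hs1, hs2⟩ := exists_irrational_btwn hs₀
  exact h0 s hs1 hs2 hsi (h s hs1)

/-- A point outside of `D` for `d ≥ 2`. -/
lemma exists_not_mem_D {d : ℕ} (hd : 2 ≤ d) : ∃ p : Fin d → ℝ, p ∉ D d := by
  let i₀ : Fin d := ⟨0, by omega⟩
  let i₁ : Fin d := ⟨1, by omega⟩
  refine ⟨fun i => if i = i₀ then √2 else √3, ?_⟩
  rintro ⟨z, w, t, h⟩
  have h0 := h i₀
  have h1 := h i₁
  have hne : i₁ ≠ i₀ := by
    intro hh
    simpa [i₀, i₁] using congrArg Fin.val hh
  simp only [if_true, hne, if_false] at h0 h1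
  have s2 : √2 * √2 = (2 : ℝ) := Real.mul_self_sqrt (by norm_num)
  have s3 : √3 * √3 = (3 : ℝ) := Real.mul_self_sqrt (by norm_num)
  have s6 : √2 * √3 = √6 := by
    rw [← Real.sqrt_mul (by norm_num)]
    norm_num
  have i2 : Irrational √2 := irrational_sqrt_two
  have i3 : Irrational √3 := by
    have := Nat.Prime.irrational_sqrt (show Nat.Prime 3 by norm_num)
    simpa using this
  have i6 : Irrational √6 := by
    norm_num
  set a : ℤ := z i₀
  set b : ℤ := z i₁
  set u : ℤ := w i₀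
  set v : ℤ := w i₁
  have e : √2 * b - √3 * a = u * b - v * a := by
    rw [h0, h1]
    ring
  have e2 : (2 * b * b + 3 * a * a - 2 * √6 * (a * b) : ℝ) = (u * b - v * a) ^ 2 := by
    rw [← e, ← s6]
    linear_combination (-(b : ℝ) * b) * s2 - (a : ℝ) * a * s3
  by_cases hab : a * b = 0
  · rcases mul_eq_zero.1 hab with ha | hb
    · -- `a = 0`: then `√2 = u`
      apply i2.ne_int u
      rw [h0, ha]
      push_cast
      ring
    · apply i3.ne_int v
      rw [h1, hb]
      push_cast
      ring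
  · have : √6 = ((2 * b * b + 3 * a * a - (u * b - v * a) ^ 2 : ℤ) : ℝ) / ((2 * (a * b) : ℤ) : ℝ) := by
      have hab' : ((a : ℝ) * b) ≠ 0 := by exact_mod_cast hab
      push_cast
      rw [eq_div_iff (by simpa using hab')]
      linear_combination (-1 : ℝ) * e2
    apply i6
    refine ⟨((2 * b * b + 3 * a * a - (u * b - v * a) ^ 2 : ℤ) : ℚ) / ((2 * (a * b) : ℤ) : ℚ), ?_⟩
    rw [this]
    push_cast
    ring

theorem D_univ (d : ℕ) : D d = Set.univ ↔ d ≤ 1 := by
  constructor
  · intro h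
    by_contra hd
    obtain ⟨p, hp⟩ := exists_not_mem_D (d := d) (by omega)
    exact hp (h ▸ mem_univ p)
  · intro hd
    refine eq_univ_of_forall fun p => ?_
    interval_cases d
    · exact ⟨0, 0, 0, fun i => i.elim0⟩
    · exact ⟨fun _ => 1, 0, p 0, fun i => by
        rw [Subsingleton.elim i 0]; simp⟩

theorem compact_fails {d : ℕ} (hd : 2 ≤ d) : ∃ K H : Set (Fin d → ℝ),
    IsCompact K ∧ Convex ℝ K ∧ (interior K).Nonempty ∧ IsCompact H ∧ (interior H).Nonempty ∧
      K ≠ H ∧ ∀ s : ℝ, 0 < s → ∀ w : Fin d → ℤ, L (translate K w) s = L (translate H w) s := by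
  obtain ⟨p, hp⟩ := exists_not_mem_D hd
  have hK : IsCompact (Metric.closedBall (fun i => p i + 2 : Fin d → ℝ) 1) :=
    isCompact_closedBall _ _
  have hi : (interior (Metric.closedBall (fun i => p i + 2 : Fin d → ℝ) 1)).Nonempty :=
    ⟨_, Metric.ball_subset_interior_closedBall (Metric.mem_ball_self one_pos)⟩
  have hpK : p ∉ Metric.closedBall (fun i => p i + 2 : Fin d → ℝ) 1 := by
    intro h
    rw [Metric.mem_closedBall, dist_pi_le_iff zero_le_one] at h
    have := h ⟨0, by omega⟩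
    rw [Real.dist_eq] at this
    norm_num at this
  refine ⟨Metric.closedBall (fun i => p i + 2) 1, insert p (Metric.closedBall (fun i => p i + 2) 1),
    hK, convex_closedBall _ _, hi, hK.insert p, hi.mono (interior_mono (subset_insert _ _)), ?_, ?_⟩
  · intro h
    exact hpK (h ▸ mem_insert _ _)
  · intro s hs w
    refine L_of_agree ?_ hs w
    ext q
    simp only [mem_inter_iff, mem_insert_iff]
    constructor
    · rintro ⟨h1, h2⟩
      exact ⟨Or.inr h1, h2⟩
    · rintro ⟨h1 | h1, h2⟩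
      · exact absurd (h1 ▸ h2) hp
      · exact ⟨h1, h2⟩

/-- (1) For arbitrary bounded sets `K, H ⊆ ℝ^d` the real Ehrhart functions of all integer translates
agree iff they agree near `0` iff `K` and `H` have the same points in `D`, the union of all lines
through an integer point in an integer direction.  (2) Bounded regular closed sets are determined
by the numbers `L_{K+w}(s)` for any single sufficiently small irrational `s`.  (3) Convex bodies are
determined.  (4) `D = ℝ^d` iff `d ≤ 1`; so all bounded sets are determined iff `d ≤ 1`: for `d ≥ 2`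
there are a convex body and another compact set with the same functions. -/
theorem result :
    (∀ (d : ℕ) (K H : Set (Fin d → ℝ)), Bornology.IsBounded K → Bornology.IsBounded H →
      List.TFAE [
        ∀ s : ℝ, 0 < s → ∀ w : Fin d → ℤ, L (translate K w) s = L (translate H w) s,
        ∃ ε : ℝ, 0 < ε ∧ ∀ s : ℝ, 0 < s → s < ε → ∀ w : Fin d → ℤ,
          L (translate K w) s = L (translate H w) s,
        K ∩ D d = H ∩ D d]) ∧
    (∀ (d : ℕ) (K H : Set (Fin d → ℝ)), Bornology.IsBounded K → Bornology.IsBounded H →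
      IsClosed K → IsClosed H → K ⊆ closure (interior K) → H ⊆ closure (interior H) →
      ∃ s₀ : ℝ, 0 < s₀ ∧ ∀ s : ℝ, 0 < s → s < s₀ → Irrational s →
        (∀ w : Fin d → ℤ, L (translate K w) s = L (translate H w) s) → K = H) ∧
    (∀ (d : ℕ) (K H : Set (Fin d → ℝ)), IsCompact K → IsCompact H → Convex ℝ K → Convex ℝ H →
      (interior K).Nonempty → (interior H).Nonempty →
      (∀ s : ℝ, 0 < s → ∀ w : Fin d → ℤ, L (translate K w) s = L (translate H w) s) → K = H) ∧
    (∀ d : ℕ, D d = Set.univ ↔ d ≤ 1) ∧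
    ∀ d : ℕ, 2 ≤ d → ∃ K H : Set (Fin d → ℝ), IsCompact K ∧ Convex ℝ K ∧ (interior K).Nonempty ∧
      IsCompact H ∧ (interior H).Nonempty ∧ K ≠ H ∧
        ∀ s : ℝ, 0 < s → ∀ w : Fin d → ℤ, L (translate K w) s = L (translate H w) s :=
  ⟨fun _ _ _ hK hH => tfae hK hH, fun _ _ _ hK hH hKc hHc hKr hHr => regular hK hH hKc hHc hKr hHr,
    fun _ _ _ hK hH hKv hHv hKi hHi h => convexBodies hK hH hKv hHv hKi hHi h, D_univ,
    fun _ hd => compact_fails hd⟩

end Pool.Agent.Results.MP_c39918_co.BoundedSets
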